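import Pool.Agent.Y320.CM.Stm

/-!
# Project CM: contraction of finite sets and properness on triples
-/

set_option autoImplicit false
open Filter Topology

namespace Pool.Agent.Y758.CM

open Pool.Agent.Y320.CM

theorem map_inv_le {G : Type} [Group G] (W : Ultrafilter G) (hW : (W : Filter G) ≤ cofinite) :
    ((W.map (fun g => g⁻¹) : Ultrafilter G) : Filter G) ≤ cofinite := by
  rw [Ultrafilter.coe_map]
  exact le_trans (Filter.map_mono hW) (inv_injective.tendsto_cofinite)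

/-- source and sink of an ultrafilter -/
theorem attr' (hL : S_LIMPT) (hT : S_ATTR)
    {G : Type} [Group G] {d : G → G → ℝ} {δ : ℝ} {φ : (ℕ → G) → Sph} {τ : G → Sph → Sph}
    (hd : HypD G d δ) (hb : Bd d φ) (he : Eqv d φ τ) (W : Ultrafilter G)
    (hW : (W : Filter G) ≤ cofinite) (y : ℕ → G) (hy : CI d y) (hc : Conv d W y) :
    ∃ q : Sph, ∀ p : Sph, p ≠ q → Tendsto (fun g => τ g p) (W : Filter G) (𝓝 (φ y)) := by
  obtain ⟨z, hz, hz'⟩ := hL G d δ hd _ (map_inv_le W hW)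
  exact ⟨φ z, hT G d δ φ τ hd hb he W y z hW hy hz hc hz'⟩

theorem infinite_sph : Infinite Sph := by
  have h : ∀ t : ℝ, t ∈ Set.Icc (0:ℝ) 1 →
      (!₂[t, √(1 - t^2), 0] : EuclideanSpace ℝ (Fin 3)) ∈
        Metric.sphere (0 : EuclideanSpace ℝ (Fin 3)) 1 := by
    intro t ht
    rw [mem_sphere_zero_iff_norm, EuclideanSpace.norm_eq]
    have h1 : 0 ≤ 1 - t^2 := by nlinarith [ht.1, ht.2]
    simp [Fin.sum_univ_three, Real.sq_sqrt h1]
  let f : Set.Icc (0:ℝ) 1 → Sph := fun t => ⟨_, h t.1 t.2⟩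
  have hf : Function.Injective f := by
    intro a b hab
    have h1 : (f a).1 0 = (f b).1 0 := by rw [hab]
    apply Subtype.ext
    simpa [f] using h1
  have : Infinite (Set.Icc (0:ℝ) 1) := (Set.Icc_infinite (by norm_num : (0:ℝ) < 1)).to_subtype
  exact Infinite.of_injective f hf

theorem contr (hA : S_ACTC) (hR : S_RAYU) (hL : S_LIMPT) (hT : S_ATTR) (hF : S_NOFIX) :
    S_CONTR := by
  intro G _ d δ φ τ hd hb he A U hU hUn
  obtain ⟨-, hone, hmul, -⟩ := hA G d δ φ τ hd hb he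
  -- step 0
  have h0 : ∀ p : Sph, ∃ (W : Ultrafilter G) (q : Sph), ∀ a : Sph, a ≠ q →
      Tendsto (fun g => τ g a) (W : Filter G) (𝓝 p) := by
    intro p
    obtain ⟨r, hr, rfl⟩ := hb.surj p
    obtain ⟨W, hW, hc, -⟩ := hR G d δ hd r hr
    obtain ⟨q, hq⟩ := attr' hL hT hd hb he W hW r hr hc
    exact ⟨W, q, hq⟩
  -- step 1
  have h1 : ∀ q : Sph, (Set.range (fun g => τ g q)).Infinite := by
    intro q hfin
    obtain ⟨g0, hg0⟩ := hF G d δ φ τ hd hb he q
    have hcl : IsClosed (Set.range (fun g => τ g q)) := hfin.isClosed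
    have hall : ∀ p : Sph, p ∈ Set.range (fun g => τ g q) := by
      intro p
      obtain ⟨W, q', hW⟩ := h0 p
      have h2 : ∃ q1 ∈ Set.range (fun g => τ g q), q1 ≠ q' := by
        by_cases h : q = q'
        · exact ⟨τ g0 q, ⟨g0, rfl⟩, by rw [← h]; exact hg0⟩
        · exact ⟨q, ⟨1, hone q⟩, h⟩
      obtain ⟨q1, ⟨g1, hg1⟩, hne⟩ := h2
      refine hcl.mem_of_tendsto (hW q1 hne) (Eventually.of_forall fun g => ?_)
      refine ⟨g * g1, ?_⟩
      simp only at hg1 ⊢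
      rw [hmul, hg1]
    haveI := infinite_sph
    exact Set.infinite_univ (hfin.subset (fun p _ => hall p))
  -- step 2
  obtain ⟨p, hp⟩ := hUn
  obtain ⟨W, q, hW⟩ := h0 p
  obtain ⟨s, ⟨k', rfl⟩, hs⟩ : ∃ s ∈ Set.range (fun g => τ g q), s ∉ (A : Set Sph) := by
    by_contra hcon
    push Not at hcon
    exact h1 q (A.finite_toSet.subset hcon)
  have h3 : ∀ a ∈ A, τ k'⁻¹ a ≠ q := by
    intro a ha h
    apply hs
    have h4 : τ k' (τ k'⁻¹ a) = a := by rw [← hmul, mul_inv_cancel, hone]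
    simp only
    rw [← h, h4]
    exact ha
  have h5 : ∀ᶠ g in (W : Filter G), ∀ a ∈ A, τ g (τ k'⁻¹ a) ∈ U := by
    rw [Filter.eventually_all_finset]
    intro a ha
    exact (hW _ (h3 a ha)).eventually (hU.mem_nhds hp)
  obtain ⟨g, hg⟩ := h5.exists
  exact ⟨g * k'⁻¹, fun a ha => by rw [hmul]; exact hg a ha⟩

theorem prop (hL : S_LIMPT) (hT : S_ATTR) : S_PROP := by
  intro G _ d δ φ τ hd hb he a b e hab hae hbe c hc
  by_contra hinf
  have hinf : Set.Infinite _ := hinf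
  haveI := hinf.cofinite_inf_principal_neBot
  let W := Ultrafilter.of (cofinite ⊓ 𝓟 {g : G | c ≤ dist (τ g a) (τ g b) ∧
    c ≤ dist (τ g a) (τ g e) ∧ c ≤ dist (τ g b) (τ g e)})
  have hW : (W : Filter G) ≤ _ := Ultrafilter.of_le _
  have hW1 : (W : Filter G) ≤ cofinite := hW.trans inf_le_left
  have hW2 : ∀ᶠ g in (W : Filter G), c ≤ dist (τ g a) (τ g b) ∧
    c ≤ dist (τ g a) (τ g e) ∧ c ≤ dist (τ g b) (τ g e) := by
    have := hW.trans inf_le_right
    rw [le_principal_iff] at this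
    exact this
  obtain ⟨y, hy, hcy⟩ := hL G d δ hd W hW1
  obtain ⟨q, hq⟩ := attr' hL hT hd hb he W hW1 y hy hcy
  have key : ∀ u v : Sph, u ≠ q → v ≠ q → ¬ ∀ᶠ g in (W : Filter G), c ≤ dist (τ g u) (τ g v) := by
    intro u v hu hv h
    have h1 := (hq u hu).dist (hq v hv)
    rw [dist_self] at h1
    have h2 := ge_of_tendsto h1 h
    linarith
  by_cases h1 : a = q
  · exact key b e (by rw [← h1]; exact hab.symm) (by rw [← h1]; exact hae.symm)
      (hW2.mono fun g hg => hg.2.2)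
  · by_cases h2 : b = q
    · exact key a e h1 (by rw [← h2]; exact hbe.symm) (hW2.mono fun g hg => hg.2.1)
    · exact key a b h1 h2 (hW2.mono fun g hg => hg.1)

end Pool.Agent.Y758.CM
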